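import Pool.Agent.W823.CT.Fin
import Pool.Agent.W177.CT.FkSum
import Pool.Agent.W177.CT.Bad
import Pool.Agent.W177.CT.Gri
import Pool.Agent.W177.CT.Mob
import Pool.Agent.W565.CTRET
import Pool.Agent.W565.CTUNION
import Pool.Agent.W565.CTWORST
import Pool.Agent.W597.CTCOVSTAT
import Pool.Agent.W597.CTSUD
import Pool.Agent.W597.CTGREEDY
import Pool.Agent.W597.CTHITB
import Pool.Agent.W880.CT.CTHITN
import Pool.Agent.W880.CT.CTES
import Pool.Agent.W880.CT.CTTWO
import Pool.Agent.W880.CT.CTMIX
import Pool.Agent.W880.CT.CTUNIF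
import Pool.Agent.W880.CT.CTPONE
import Pool.Agent.W63.CT.CTDYN
import Pool.Agent.W782.CTEMB
import Pool.Agent.W782.CTCONC
import Pool.Agent.W782.CTGROW
import Pool.Agent.W782.CTLOWC
import Pool.Agent.W782.CTGCV
import Pool.Agent.W782.CTORTH
import Pool.Agent.W782.CTMASS
import Pool.Agent.W782.CTLOWER
import Pool.Agent.W12.CT.MM
import Pool.Agent.W12.CT.Tpos
import Pool.Agent.W12.CT.Cs
import Pool.Agent.W462.CTGREEN
import Pool.Agent.W366.CT.CTCYC
import Pool.Agent.W338.CTNEU
import Pool.Agent.W338.CTCOVCONN
import Pool.Agent.W338.CTCOVGE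
import Pool.Agent.W823.CT.Covle

/-!
# Cover times of random walk on dynamical percolation (positive answer to Q1, with `C(μ) = C / μ`)

`Tdyn G μ p` is the worst case expected cover time of random walk on dynamical percolation on `G`,
`Tsrw G` the worst case expected cover time of (discrete time) simple random walk.
-/

open MeasureTheory ProbabilityTheory Pool.Agent.W823
open scoped ENNReal BigOperators

namespace Pool.Agent.Results.MP_6504f0_pr.CoverComparison

variable {V : Type} [Fintype V] [DecidableEq V]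

/-- `1` if the set `A` of visited vertices is not all of `V`, else `0` -/
noncomputable def notAll (A : Finset V) : ℝ := if A = Finset.univ then 0 else 1

/-- One step of simple random walk together with its set of visited vertices, acting on functions:
`(srwStep f) x A = E f(X_1, A ∪ {X_1})`, where `X_1` is a uniformly chosen neighbour of `x`. -/
noncomputable def srwStep (G : SimpleGraph V) [DecidableRel G.Adj]
    (f : V → Finset V → ℝ) : V → Finset V → ℝ :=
  fun x A => (∑ y ∈ G.neighborFinset x, f y (insert y A)) / (G.degree x : ℝ)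

/-- `max_x E_x[σ_srw]`, where `E_x[σ_srw] = ∑_{k ≥ 0} P_x(σ_srw > k)` and `P_x(σ_srw > k)` is the
`k`-th iterate of `srwStep` applied to `notAll`, evaluated at the initial state `(x, {x})`. -/
noncomputable def Tsrw (G : SimpleGraph V) [DecidableRel G.Adj] : ℝ≥0∞ :=
  ⨆ x : V, ∑' k : ℕ, ENNReal.ofReal ((srwStep G)^[k] (fun _ A => notAll A) x {x})

/-- states of the process: (position of the walk, environment, set of visited vertices) -/
abbrev State (V : Type) (G : SimpleGraph V) : Type := V × (G.edgeSet → Bool) × Finset V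

/-- Generator of the Markov process `(X_t, η_t, A_t)` (walk, environment, set of vertices visited up
to time `t`): every edge `e` is resampled at rate `μ`, to `open = true` with probability `p`; at rate
`1` the walk crosses each open edge `{x, y}` at its present position `x`, and then `y` is added to
the set of visited vertices. -/
noncomputable def genFun (G : SimpleGraph V) [DecidableRel G.Adj] (μ p : ℝ)
    (f : State V G → ℝ) : State V G → ℝ :=
  fun s =>
    μ * ∑ e : G.edgeSet,
      (p * f (s.1, Function.update s.2.1 e true, s.2.2)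
        + (1 - p) * f (s.1, Function.update s.2.1 e false, s.2.2) - f s)
    + ∑ y : V, if h : G.Adj s.1 y then
        (if s.2.1 ⟨s(s.1, y), h⟩ = true then f (y, s.2.1, insert y s.2.2) - f s else 0) else 0

theorem genFun_add (G : SimpleGraph V) [DecidableRel G.Adj] (μ p : ℝ)
    (f g : State V G → ℝ) :
    genFun G μ p (f + g) = genFun G μ p f + genFun G μ p g := (CT.gen G μ p).map_add f g

theorem genFun_smul (G : SimpleGraph V) [DecidableRel G.Adj] (μ p : ℝ) (c : ℝ)
    (f : State V G → ℝ) :
    genFun G μ p (c • f) = c • genFun G μ p f := (CT.gen G μ p).map_smul c f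

/-- The generator `genFun` as a linear map on the functions on the finite state space. -/
noncomputable def gen (G : SimpleGraph V) [DecidableRel G.Adj] (μ p : ℝ) :
    (State V G → ℝ) →ₗ[ℝ] (State V G → ℝ) where
  toFun := genFun G μ p
  map_add' := genFun_add G μ p
  map_smul' := genFun_smul G μ p

/-- `exp (t L) g` for a linear operator `L` on the functions on a finite set -/
noncomputable def semigroup {ι : Type} [Fintype ι] (L : (ι → ℝ) →ₗ[ℝ] (ι → ℝ)) (t : ℝ) (g : ι → ℝ) :
    ι → ℝ :=
  (NormedSpace.exp (t • LinearMap.toContinuousLinearMap L)) g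

/-- `E_{(v,η)}[σ_{μ,p}(G)] = ∫_0^∞ P_{(v,η)}(σ > t) dt`, where `P_{(v,η)}(σ > t) = P(A_t ≠ V)` is
given by the semigroup `exp (t L)` of the generator `L = gen G μ p` started at `(v, η, {v})`. -/
noncomputable def expectedCover (G : SimpleGraph V) [DecidableRel G.Adj] (μ p : ℝ) (v : V)
    (η : G.edgeSet → Bool) : ℝ≥0∞ :=
  ∫⁻ t in Set.Ioi (0 : ℝ),
    ENNReal.ofReal (semigroup (gen G μ p) t (fun s => notAll s.2.2) (v, η, {v}))

/-- `T_{μ,p}(G) = max_{(v,η)} E_{(v,η)}[σ_{μ,p}(G)]` -/
noncomputable def Tdyn (G : SimpleGraph V) [DecidableRel G.Adj] (μ p : ℝ) : ℝ≥0∞ :=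
  ⨆ v : V, ⨆ η : G.edgeSet → Bool, expectedCover G μ p v η

theorem final : CT.S_FINAL := by
  have emb := Pool.Agent.W782.CTEMB.main
  have conc := Pool.Agent.W782.CTCONC.main emb
  have sud := Pool.Agent.W597.CTSUD.main emb
  have grow := Pool.Agent.W782.CTGROW.main emb sud conc
  have mm := Pool.Agent.W12.CT.MM.main emb grow Pool.Agent.W597.CTGREEDY.main
  have bad : CT.S_BAD := Pool.Agent.W177.CT.bad
  have covstat := Pool.Agent.W597.CTCOVSTAT.main bad Pool.Agent.W565.CTRET.main Pool.Agent.W565.CTUNION.main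
  have worst := Pool.Agent.W565.CTWORST.main Pool.Agent.W880.CTHITN.main
  have dyn := Pool.Agent.W63.CTDYN.main Pool.Agent.W880.CTES.main Pool.Agent.W880.CT.main Pool.Agent.W880.CTMIX.main
  have gri := Pool.Agent.W177.CT.gri
  have upper := CT.Up.main emb covstat worst dyn Pool.Agent.W880.CTUNIF.main mm gri
  have hitb := Pool.Agent.W597.CTHITB.main
  have diag := Pool.Agent.W177.CT.diag hitb
  have cyc := Pool.Agent.W366.CTCYC.main gri hitb
  have neu := Pool.Agent.W338.CTNEU.main
  have covconn := Pool.Agent.W338.CTCOVCONN.main neu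
  have covge := Pool.Agent.W338.CTCOVGE.main neu cyc
  have tpos := Pool.Agent.W12.CT.Tpos.main
  have covle := CT.Covle.main gri tpos Pool.Agent.W782.CTGCV.main Pool.Agent.W782.CTORTH.main Pool.Agent.W177.CT.mob neu covconn
    (Pool.Agent.W12.CT.Cs.main tpos.1)
  have lower := Pool.Agent.W782.CTLOWER.main covle covge Pool.Agent.W782.CTMASS.main (Pool.Agent.W782.CTLOWC.main conc) diag emb
  exact CT.Fin'.main upper Pool.Agent.W880.CTPONE.main Pool.Agent.W462.CTGREEN.main lower Pool.Agent.W177.CT.card Pool.Agent.W880.CTUNIF.main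

/-- There is a universal constant `C` such that for every finite connected graph `G` and all
`μ, p ∈ (0, 1]`: `T_{μ,p}(G) ≤ (C / μ) p⁻¹ T_srw(G)`. -/
theorem result : ∃ C : ℝ, 0 < C ∧ ∀ (V : Type) [Fintype V] [DecidableEq V] (G : SimpleGraph V)
    [DecidableRel G.Adj] (μ p : ℝ), G.Connected → 0 < μ → μ ≤ 1 → 0 < p → p ≤ 1 →
    Tdyn G μ p ≤ ENNReal.ofReal (C / μ * p⁻¹) * Tsrw G := final

end Pool.Agent.Results.MP_6504f0_pr.CoverComparison
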